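import Mathlib

set_option autoImplicit false

namespace Pool.Agent.Results.MP_89f45c_al.Pos

open Finset SkewMonoidAlgebra

variable {F : Type} [Field F] (σ : F ≃+* F) {n : ℕ}

def Nm (k : ℕ) (a : F) : F := ∏ t ∈ range k, (σ ^ t) a

def mono (a : Fin n → F) (k : Fin n → ℕ) : F :=
  ∏ i, (σ ^ ∑ j ∈ univ.filter (· < i), k j) (Nm σ (k i) (a i))

def Aff : Set (Fin n → F) := {a | ∀ i j, i ≠ j → σ (a j) * a i = σ (a i) * a j}

noncomputable def ev (a : Fin n → F) (f : SkewMonoidAlgebra F (Multiplicative (Fin n → ℕ))) : F :=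
  f.sum fun k c => c * mono σ a k.toAdd

lemma Nm_add (k l : ℕ) (a : F) : Nm σ (k + l) a = Nm σ k a * (σ ^ k) (Nm σ l a) := by
  simp only [Nm, prod_range_add, pow_add, map_prod, RingAut.mul_apply]

lemma fix {c : F} (h : σ c = c) (t : ℕ) : (σ ^ t) c = c := by
  induction t with
  | zero => rfl
  | succ t ih => rw [pow_succ]; exact (congrArg (σ ^ t) h).trans ih

lemma mono_const (a : F) (k : Fin n → ℕ) : mono σ (fun _ => a) k = Nm σ (∑ i, k i) a := by
  induction n with
  | zero => simp [mono, Nm]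
  | succ n ih =>
    rw [Fin.sum_univ_castSucc, Nm_add, ← ih, mono, Fin.prod_univ_castSucc, mono]
    simp [sum_filter, Fin.sum_univ_castSucc, not_lt.2 (Fin.castSucc_lt_last _).le]

lemma mono_eq (l : Fin n → F) (hl : ∀ i, σ (l i) = l i) (a : F) (k : Fin n → ℕ) :
    mono σ (fun i => l i * a) k = (∏ i, l i ^ k i) * Nm σ (∑ i, k i) a := by
  rw [← mono_const, mono, mono, ← prod_mul_distrib]
  refine prod_congr rfl fun i _ => ?_
  simp only [Nm, map_mul, prod_mul_distrib, fix σ (hl i), prod_const, card_range, map_pow]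

lemma param {a : Fin n → F} (ha : a ∈ Aff σ) :
    ∃ (l : Fin n → F) (b : F), (∀ i, σ (l i) = l i) ∧ a = fun i => l i * b := by
  by_cases h : a = 0
  · exact ⟨1, 0, by simp, by ext; simp [h]⟩
  obtain ⟨j, hj⟩ := Function.ne_iff.1 h
  have hj' : a j ≠ 0 := hj
  refine ⟨fun i => a i / a j, a j, fun i => ?_, by ext; field_simp⟩
  by_cases hi : i = j
  · simp [hi, hj']
  rw [map_div₀, div_eq_div_iff (by simpa using hj') hj', ← ha i j hi, mul_comm]

lemma mono_add {a : Fin n → F} (ha : a ∈ Aff σ) (k k' : Fin n → ℕ) :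
    mono σ a (k + k') = mono σ a k * (σ ^ ∑ i, k i) (mono σ a k') := by
  obtain ⟨l, b, hl, rfl⟩ := param σ ha
  simp only [mono_eq σ l hl, Pi.add_apply, sum_add_distrib, Nm_add, pow_add, prod_mul_distrib,
    map_mul, map_prod, map_pow, fix σ (hl _)]
  ring

lemma mono_conj {a : Fin n → F} (ha : a ∈ Aff σ) {c : F} (hc : c ≠ 0) : ∃ b ∈ Aff σ,
    ∀ k : Fin n → ℕ, mono σ b k * c = mono σ a k * (σ ^ ∑ i, k i) c := by
  obtain ⟨l, b, hl, rfl⟩ := param σ ha
  refine ⟨fun i => l i * (σ c * b / c), fun i j _ => by simp only [map_mul, hl]; ring, fun k => ?_⟩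
  rw [mono_eq σ l hl, mono_eq σ l hl, mul_assoc, mul_assoc]
  congr 1
  induction ∑ i, k i with
  | zero => simp [Nm]
  | succ m ih =>
    have : (σ ^ m) c ≠ 0 := (map_ne_zero _).2 hc
    simp only [Nm, prod_range_succ] at ih ⊢
    rw [mul_right_comm, ih, map_div₀, map_mul, pow_succ, RingAut.mul_apply]
    field_simp

lemma ev_single (a : Fin n → F) (k : Multiplicative (Fin n → ℕ)) (c : F) :
    ev σ a (single k c) = c * mono σ a k.toAdd := sum_single_index (zero_mul _)

noncomputable def evH (a : Fin n → F) : SkewMonoidAlgebra F (Multiplicative (Fin n → ℕ)) →+ F where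
  toFun := ev σ a
  map_zero' := rfl
  map_add' f g := sum_add_index' (by simp) (by simp [add_mul])

variable [MulSemiringAction (Multiplicative (Fin n → ℕ)) F]
  (hs : ∀ (k : Multiplicative (Fin n → ℕ)) (c : F), k • c = (σ ^ ∑ i, k.toAdd i) c)
include hs

lemma ev_mul {a : Fin n → F} (ha : a ∈ Aff σ) (g f : SkewMonoidAlgebra F (Multiplicative (Fin n → ℕ))) :
    evH σ a (g * f) = evH σ a (g * single 1 (evH σ a f)) := by
  have e : ∀ k c, evH σ a (single k c) = c * mono σ a k.toAdd := ev_single σ a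
  induction g using SkewMonoidAlgebra.induction_on' with
  | add g g' h1 h2 => rw [add_mul, add_mul, map_add, map_add, h1, h2]
  | single k c =>
    induction f using SkewMonoidAlgebra.induction_on' with
    | add f f' h1 h2 => rw [mul_add, map_add, h1, h2, map_add, single_add, mul_add, map_add]
    | single l d =>
      simp only [single_mul_single, e, hs, toAdd_mul, mono_add σ ha, mul_one, map_mul]
      ring

def I (a : (Aff σ : Set (Fin n → F))) : Ideal (SkewMonoidAlgebra F (Multiplicative (Fin n → ℕ))) where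
  carrier := {f | evH σ a.1 f = 0}
  add_mem' h1 h2 := by simp_all
  zero_mem' := map_zero _
  smul_mem' g f h := by
    have : evH σ a.1 f = 0 := h
    simp [ev_mul σ hs a.2 g f, this]

omit hs [MulSemiringAction (Multiplicative (Fin n → ℕ)) F] in
lemma ev_c (a : Fin n → F) (c : F) : evH σ a (single 1 c) = c :=
  (ev_single σ a 1 c).trans (by simp [mono, Nm])

instance (a : (Aff σ : Set (Fin n → F))) : IsSimpleModule (SkewMonoidAlgebra F (Multiplicative (Fin n → ℕ)))
    (SkewMonoidAlgebra F (Multiplicative (Fin n → ℕ)) ⧸ I σ hs a) := by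
  refine isSimpleModule_iff_isCoatom.2 (Ideal.isMaximal_iff.2 ⟨fun h => ?_, fun J f hJ h1 h2 => ?_⟩).1
  · exact one_ne_zero ((ev_c σ a.1 1).symm.trans h)
  · have h3 : f - single 1 (evH σ a.1 f) ∈ I σ hs a := by
      change evH σ a.1 _ = 0
      rw [map_sub, ev_c, sub_self]
    have h4 := J.mul_mem_left (single 1 (evH σ a.1 f)⁻¹) (sub_mem h2 (hJ h3))
    rwa [sub_sub_cancel, single_mul_single, one_smul, inv_mul_cancel₀ h1, mul_one] at h4

omit hs [MulSemiringAction (Multiplicative (Fin n → ℕ)) F]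

theorem result : ∀ (F : Type) [Field F] [Finite F] (σ : F ≃+* F) (n : ℕ), 2 ≤ n →
    ∀ [MulSemiringAction (Multiplicative (Fin n → ℕ)) F],
    (∀ (k : Multiplicative (Fin n → ℕ)) (c : F), k • c = (σ ^ ∑ i, k.toAdd i) c) →
    ∀ (J : Ideal (SkewMonoidAlgebra F (Multiplicative (Fin n → ℕ))))
      (f : SkewMonoidAlgebra F (Multiplicative (Fin n → ℕ))),
      (∀ a ∈ Aff σ, (∀ g ∈ J, ev σ a g = 0) → ev σ a f = 0) ↔
        ∃ g ∈ J, ∃ h, (∀ a ∈ Aff σ, ev σ a h = 0) ∧ f = g + h := by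
  intro F _ _ σ n _ _ hs J f
  refine ⟨fun H => ?_, ?_⟩
  swap
  · rintro ⟨g, hg, h, hh, rfl⟩ a ha hJ
    exact ((evH σ a).map_add g h).trans (by
      change ev σ a g + ev σ a h = 0
      rw [hJ g hg, hh a ha, add_zero])
  classical
  have := Fintype.ofFinite (Aff σ : Set (Fin n → F))
  let φ := LinearMap.pi fun a => (I σ hs a).mkQ
  by_contra hc
  have h1 : (Submodule.map φ J).mkQ (φ f) ∉ Module.jacobson
      (SkewMonoidAlgebra F (Multiplicative (Fin n → ℕ))) _ := by
    rw [IsSemisimpleModule.jacobson_eq_bot, Submodule.mem_bot, Submodule.mkQ_apply,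
      Submodule.Quotient.mk_eq_zero]
    rintro ⟨g, hg, h⟩
    refine hc ⟨g, hg, f - g, fun a ha => ?_, by abel⟩
    exact (Submodule.Quotient.eq _).1 (congrFun h ⟨a, ha⟩).symm
  simp only [Module.jacobson, Submodule.mem_sInf, not_forall] at h1
  obtain ⟨N, hN, h1⟩ := h1
  have := isSimpleModule_iff_isCoatom.2 hN
  let π := N.mkQ ∘ₗ (Submodule.map φ J).mkQ
  have h2 : π (φ f) ≠ 0 := fun h => h1 ((Submodule.Quotient.mk_eq_zero _).1 h)
  obtain ⟨a, ha⟩ : ∃ a, π ∘ₗ LinearMap.single _ _ a ≠ 0 := by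
    by_contra! h
    exact h2 (by rw [LinearMap.pi_ext' (f := π) (g := 0) fun a => by simpa using h a]; rfl)
  have hb := LinearMap.bijective_of_ne_zero ha
  obtain ⟨g, hg⟩ := hb.2 (π (φ 1))
  obtain ⟨g, rfl⟩ := (I σ hs a).mkQ_surjective g
  have h3 : ∀ h, π (φ h) = 0 ↔ evH σ a.1 (h * single 1 (evH σ a.1 g)) = 0 := fun h => by
    rw [← ev_mul σ hs a.2, ← mul_one h, ← smul_eq_mul, map_smul, map_smul, ← hg, ← map_smul,
      map_eq_zero_iff _ hb.1, ← map_smul, Submodule.mkQ_apply, Submodule.Quotient.mk_eq_zero,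
      smul_eq_mul, smul_eq_mul, mul_one]
    rfl
  have h4 : evH σ a.1 g ≠ 0 := fun h => h2 ((h3 f).2 (by simp [h]))
  obtain ⟨b, hb, h5⟩ := mono_conj σ a.2 h4
  have h6 : ∀ h, evH σ a.1 (h * single 1 (evH σ a.1 g)) = evH σ b h * evH σ a.1 g := fun h => by
    induction h using SkewMonoidAlgebra.induction_on' with
    | add g g' h1 h2 => rw [add_mul, map_add, map_add, h1, h2, add_mul]
    | single k c =>
      have e : ∀ a k c, evH σ a (single k c) = c * mono σ a k.toAdd := ev_single (n := n) σ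
      rw [single_mul_single, e, e, mul_assoc c (mono σ b _), h5, hs, mul_one]
      ring
  simp only [h6, mul_eq_zero, h4, or_false] at h3
  refine h2 ((h3 f).2 (H b hb fun g hg => (h3 g).1 ?_))
  simp [π, (Submodule.Quotient.mk_eq_zero _).2 (Submodule.mem_map_of_mem (f := φ) hg)]

end Pool.Agent.Results.MP_89f45c_al.Pos
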